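import Pool.Agent.Helper28.T3.StB

/-!
# Project T3, module WM: monotonicity, support and continuity of `m ↦ Wf X a m`
-/

set_option autoImplicit false

namespace Pool.Agent.Helper10.T3

open Pool.Agent.Helper28.T3

private lemma wf_nonneg (X a m : ℝ) : 0 ≤ Wf X a m := le_max_left _ _

private lemma cube_le {x y : ℝ} (h : x ≤ y) : x ^ 3 ≤ y ^ 3 := by
  have h1 : y ^ 3 - x ^ 3 = (y - x) * (y ^ 2 + y * x + x ^ 2) := by ring
  have h2 : 0 ≤ y ^ 2 + y * x + x ^ 2 := by nlinarith [sq_nonneg (y + x), sq_nonneg y, sq_nonneg x]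
  nlinarith [mul_nonneg (sub_nonneg.2 h) h2]

private lemma wf_neg (X a m : ℝ) (hm : m ≤ 0) : Wf X a m = 0 := by
  unfold Wf
  have h1 : 4 * m ^ 3 - 3 * a ^ 2 * m ^ 2 ≤ 0 := by
    have h2 : m ^ 3 ≤ 0 := by
      have := cube_le hm
      simpa using this
    have h3 : 0 ≤ a ^ 2 * m ^ 2 := by positivity
    nlinarith
  rw [Real.sqrt_eq_zero_of_nonpos h1]
  apply max_eq_left
  have := Real.sqrt_nonneg (4 * m ^ 3 - a ^ 2 * X)
  linarith

private lemma wf_big (X a m : ℝ) (hm : X ≤ 3 * m ^ 2) : Wf X a m = 0 := by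
  unfold Wf
  apply max_eq_left
  have h1 : Real.sqrt (4 * m ^ 3 - 3 * a ^ 2 * m ^ 2) ≤ Real.sqrt (4 * m ^ 3 - a ^ 2 * X) := by
    apply Real.sqrt_le_sqrt
    have h2 : 0 ≤ a ^ 2 := sq_nonneg a
    nlinarith [mul_le_mul_of_nonneg_left hm h2]
  linarith

private lemma wf_le (X a m : ℝ) (hX : 0 < X) (ha : 0 < a) : Wf X a m ≤ a * Real.sqrt X := by
  unfold Wf
  have h0 : 0 ≤ a * Real.sqrt X := by positivity
  apply max_le h0
  have hv := Real.sqrt_nonneg (4 * m ^ 3 - a ^ 2 * X)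
  have h1 : Real.sqrt (4 * m ^ 3 - 3 * a ^ 2 * m ^ 2) ≤
      a * Real.sqrt X + Real.sqrt (4 * m ^ 3 - a ^ 2 * X) := by
    rw [Real.sqrt_le_iff]
    refine ⟨by linarith, ?_⟩
    have h2 : 4 * m ^ 3 - a ^ 2 * X ≤ Real.sqrt (4 * m ^ 3 - a ^ 2 * X) ^ 2 := by
      rcases le_or_gt 0 (4 * m ^ 3 - a ^ 2 * X) with h | h
      · rw [Real.sq_sqrt h]
      · linarith [sq_nonneg (Real.sqrt (4 * m ^ 3 - a ^ 2 * X))]
    have h3 : Real.sqrt X ^ 2 = X := Real.sq_sqrt hX.le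
    have h4 : 0 ≤ 3 * a ^ 2 * m ^ 2 := by positivity
    have h5 : (a * Real.sqrt X + Real.sqrt (4 * m ^ 3 - a ^ 2 * X)) ^ 2 =
        a ^ 2 * Real.sqrt X ^ 2 + 2 * (a * Real.sqrt X * Real.sqrt (4 * m ^ 3 - a ^ 2 * X)) +
          Real.sqrt (4 * m ^ 3 - a ^ 2 * X) ^ 2 := by ring
    rw [h5, h3]
    have h6 : 0 ≤ a * Real.sqrt X * Real.sqrt (4 * m ^ 3 - a ^ 2 * X) := mul_nonneg h0 hv
    linarith
  linarith

private lemma wf_cont (X a : ℝ) : Continuous (Wf X a) := by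
  unfold Wf
  fun_prop

/-- the first radicand increases where it is positive -/
private lemma u_mono (a m m' : ℝ) (h1 : 0 < 4 * m ^ 3 - 3 * a ^ 2 * m ^ 2) (h : m ≤ m') :
    4 * m ^ 3 - 3 * a ^ 2 * m ^ 2 ≤ 4 * m' ^ 3 - 3 * a ^ 2 * m' ^ 2 := by
  have h2 : 0 < m ^ 2 * (4 * m - 3 * a ^ 2) := by
    have : m ^ 2 * (4 * m - 3 * a ^ 2) = 4 * m ^ 3 - 3 * a ^ 2 * m ^ 2 := by ring
    rw [this]
    exact h1
  have h3 : 0 < 4 * m - 3 * a ^ 2 := by
    by_contra hc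
    push Not at hc
    have := mul_nonpos_of_nonneg_of_nonpos (sq_nonneg m) hc
    linarith
  have ha2 : 0 ≤ a ^ 2 := sq_nonneg a
  have hm : 0 < m := by linarith
  have hm' : 0 < m' := by linarith
  have h4 : 0 < 4 * m' - 3 * a ^ 2 := by linarith
  have h5 : 4 * m' ^ 3 - 3 * a ^ 2 * m' ^ 2 - (4 * m ^ 3 - 3 * a ^ 2 * m ^ 2) =
      (m' - m) * (m' * (4 * m' - 3 * a ^ 2) + m * (4 * m - 3 * a ^ 2) + 4 * m * m') := by ring
  have h6 : 0 ≤ (m' - m) * (m' * (4 * m' - 3 * a ^ 2) + m * (4 * m - 3 * a ^ 2) + 4 * m * m') := by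
    apply mul_nonneg (by linarith)
    positivity
  linarith

private lemma wf_mono (X a p : ℝ) (hpX : 4 * p ^ 3 = a ^ 2 * X) :
    MonotoneOn (Wf X a) (Set.Iic p) := by
  intro m hm m' hm' h
  have key : ∀ x : ℝ, x ≤ p → Wf X a x = Real.sqrt (4 * x ^ 3 - 3 * a ^ 2 * x ^ 2) := by
    intro x hx
    unfold Wf
    have h1 : 4 * x ^ 3 - a ^ 2 * X ≤ 0 := by
      have := cube_le hx
      linarith
    rw [Real.sqrt_eq_zero_of_nonpos h1, sub_zero]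
    exact max_eq_right (Real.sqrt_nonneg _)
  rw [key m hm, key m' hm']
  rcases le_or_gt (4 * m ^ 3 - 3 * a ^ 2 * m ^ 2) 0 with h1 | h1
  · rw [Real.sqrt_eq_zero_of_nonpos h1]
    exact Real.sqrt_nonneg _
  · exact Real.sqrt_le_sqrt (u_mono a m m' h1 h)

private lemma wf_anti (X a p : ℝ) (ha : 0 < a) (hp : 0 < p) (hpX : 4 * p ^ 3 = a ^ 2 * X) :
    AntitoneOn (Wf X a) (Set.Ici p) := by
  intro m hm m' hm' h
  have hm1 : p ≤ m := hm
  have hm1' : p ≤ m' := hm'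
  rcases le_or_gt (Real.sqrt (4 * m' ^ 3 - 3 * a ^ 2 * m' ^ 2) -
    Real.sqrt (4 * m' ^ 3 - a ^ 2 * X)) 0 with hz | hz
  · have : Wf X a m' = 0 := max_eq_left hz
    rw [this]
    exact wf_nonneg X a m
  · have e' : Wf X a m' = Real.sqrt (4 * m' ^ 3 - 3 * a ^ 2 * m' ^ 2) -
        Real.sqrt (4 * m' ^ 3 - a ^ 2 * X) := max_eq_right hz.le
    rw [e']
    refine le_trans ?_ (le_max_right _ _)
    have hv0 : 0 ≤ 4 * m ^ 3 - a ^ 2 * X := by
      have := cube_le hm1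
      linarith
    have hvv : 4 * m ^ 3 - a ^ 2 * X ≤ 4 * m' ^ 3 - a ^ 2 * X := by
      have := cube_le h
      linarith
    have hv0' : 0 ≤ 4 * m' ^ 3 - a ^ 2 * X := le_trans hv0 hvv
    have hlt : 4 * m' ^ 3 - a ^ 2 * X < 4 * m' ^ 3 - 3 * a ^ 2 * m' ^ 2 := by
      by_contra hc
      push Not at hc
      have := Real.sqrt_le_sqrt hc
      linarith
    have hu0' : 0 < 4 * m' ^ 3 - 3 * a ^ 2 * m' ^ 2 := lt_of_le_of_lt hv0' hlt
    have ha2 : 0 < a ^ 2 := by positivity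
    have hX' : 3 * a ^ 2 * m' ^ 2 < a ^ 2 * X := by linarith
    have hm0 : 0 < m := by linarith
    have hsq : m ^ 2 ≤ m' ^ 2 := by nlinarith
    have hsq' : 3 * a ^ 2 * m ^ 2 ≤ 3 * a ^ 2 * m' ^ 2 := by
      apply mul_le_mul_of_nonneg_left hsq
      positivity
    have hu0 : 0 < 4 * m ^ 3 - 3 * a ^ 2 * m ^ 2 := by linarith
    have huu := u_mono a m m' hu0 h
    -- square roots
    set U := Real.sqrt (4 * m ^ 3 - 3 * a ^ 2 * m ^ 2) with hU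
    set V := Real.sqrt (4 * m ^ 3 - a ^ 2 * X) with hV
    set U' := Real.sqrt (4 * m' ^ 3 - 3 * a ^ 2 * m' ^ 2) with hU'
    set V' := Real.sqrt (4 * m' ^ 3 - a ^ 2 * X) with hV'
    have sU : U ^ 2 = 4 * m ^ 3 - 3 * a ^ 2 * m ^ 2 := Real.sq_sqrt hu0.le
    have sV : V ^ 2 = 4 * m ^ 3 - a ^ 2 * X := Real.sq_sqrt hv0
    have sU' : U' ^ 2 = 4 * m' ^ 3 - 3 * a ^ 2 * m' ^ 2 := Real.sq_sqrt hu0'.le
    have sV' : V' ^ 2 = 4 * m' ^ 3 - a ^ 2 * X := Real.sq_sqrt hv0'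
    have pU : 0 < U := Real.sqrt_pos.2 hu0
    have pV : 0 ≤ V := Real.sqrt_nonneg _
    have pU' : 0 < U' := Real.sqrt_pos.2 hu0'
    have pV' : 0 ≤ V' := Real.sqrt_nonneg _
    have lU : U ≤ U' := Real.sqrt_le_sqrt huu
    have lV : V ≤ V' := Real.sqrt_le_sqrt hvv
    have hUV : V ≤ U := by
      apply Real.sqrt_le_sqrt
      linarith
    have h1 : (U' - V') * (U' + V') ≤ (U - V) * (U' + V') := by
      have h2 : (U' - V') * (U' + V') = U' ^ 2 - V' ^ 2 := by ring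
      have h3 : (U - V) * (U + V) = U ^ 2 - V ^ 2 := by ring
      have h4 : (U - V) * (U + V) ≤ (U - V) * (U' + V') :=
        mul_le_mul_of_nonneg_left (by linarith) (by linarith)
      rw [h2, sU', sV']
      rw [h3, sU, sV] at h4
      linarith
    exact le_of_mul_le_mul_right h1 (by linarith)

theorem hWM : StWM := by
  intro X a hX ha
  exact ⟨fun m hm => wf_neg X a m hm, fun m _ hm => wf_big X a m hm,
    fun m => wf_le X a m hX ha, wf_cont X a,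
    fun p hp hpX => ⟨wf_mono X a p hpX, wf_anti X a p ha hp hpX⟩⟩

end Pool.Agent.Helper10.T3
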